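import Pool.Agent.MP_77f003_co.H34.Main

/-!
The coarse planarity dichotomy holds for every locally finite vertex-transitive graph that is
connected or, more generally, has countably many connected components.
-/

namespace Pool.Agent.Results.MP_77f003_co.CoarseDichotomy

open Pool.Agent.MP_77f003_co.H34

universe u

theorem result {V : Type u} (G : SimpleGraph V) (hlf : ∀ v, (G.neighborSet v).Finite)
    (ht : ∀ u v, ∃ φ : G ≃g G, φ u = v) (hc : Countable G.ConnectedComponent) :
    (∃ (W : Type) (P : SimpleGraph W), Planar P ∧ QuasiIsometric G P) ∨
      ∀ (W : Type) [Finite W] (H : SimpleGraph W), AsymptoticMinor H G :=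
  dichotomy G hlf ht hc

end Pool.Agent.Results.MP_77f003_co.CoarseDichotomy
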